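import Pool.Agent.Lib_helper45.KM.Final

/-!
# `H^*(BG(A); ℚ)` is not finitely generated for indefinite `A` of size at least three

Let `A` be a generalized Cartan matrix, `T` the maximal torus of the unitary form `K(A)`, `N` its
normalizer, `W = N/T` the Weyl group, `V = H_2(BT; ℚ)` and `P = H^*(BT; ℚ) = Sym V*`.
Classically `BN → BK(A) ≃ BG(A)` is a rational equivalence (homotopy decomposition of `BK(A)` over
the spherical subsets and Borel's theorem for the compact groups `K_I(A)`).  By Tits the
extension `T → N → W` has a class of order at most two, so that rationally `BN` is the
Borel construction `BT_{hW}`, and the weights of the power maps of `T` give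
`H^*(BG(A); ℚ) = H^*(W; P)` as bigraded rings.  The ring `HBG R` below is this
ring `H^*(W; P)`, defined by homogeneous group cochains with the cup product.

The proof: the series `E(t) = ∑_m ∑_p (-1)^p dim H^p(W; P_m) t^m` is a combination
of the Hilbert series of the invariant rings of finite parabolic subgroups, so by Molien's formula it
is `O(t^{-r})` at infinity, and `E(0) = 1`.  If the ring were finitely generated, it would be a
finite module over `P^W`, which for indefinite type is a polynomial ring in at most one quadratic
form and `r - n` linear forms; hence `E(t) (1-t)^{r-n} (1-t²)` would be a polynomial, of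
degree at most `2 - n < 0` by the growth at infinity; contradiction.
-/

namespace Pool.Agent.Results.MP_fc0265_gt.InfinitelyGenerated

open KM

/-- For every `n ≥ 3`, every indecomposable generalized Cartan matrix `A` of indefinite
type and every realization of `A`, the ring `H^*(W; P)` is not finitely generated. -/
theorem result (n : ℕ) (hn : 3 ≤ n) (A : Matrix (Fin n) (Fin n) ℤ) (hA : IsGCM A)
    (hind : Indecomposable A) (hdef : IndefiniteType A) (r : ℕ) (R : Realization A r) :
    ¬ Algebra.FiniteType ℚ (HBG R) :=
  main_theorem n hn A hA hind hdef r R

end Pool.Agent.Results.MP_fc0265_gt.InfinitelyGenerated
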